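import Pool.Agent.H92.EQ.TT

/-!
Board MP_75a732_an, row TC2.
-/

namespace Pool.Agent.H47.EQ

open scoped BigOperators ComplexConjugate ContDiff ComplexOrder
open MeasureTheory Pool.Agent.H92.EQ

noncomputable section

theorem nsq_nonneg' {ι : Type} [Fintype ι] (z : ι → ℂ) : 0 ≤ nsq z :=
  Finset.sum_nonneg fun _ _ => by positivity

theorem continuous_nsq {ι : Type} [Fintype ι] : Continuous (nsq : (ι → ℂ) → ℝ) := by
  unfold nsq
  fun_prop

theorem nsq_pos' {ι : Type} [Fintype ι] {z : ι → ℂ} (hz : z ≠ 0) : 0 < nsq z := by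
  obtain ⟨i, hi⟩ := Function.ne_iff.1 hz
  exact Finset.sum_pos' (fun _ _ => by positivity) ⟨i, Finset.mem_univ _, by
    have : 0 < ‖z i‖ := norm_pos_iff.2 hi
    positivity⟩

/-- The compact shell. -/
def shell (N : ℕ) : Set (Fin N → ℂ) := {z | 1 ≤ nsq z ∧ nsq z ≤ Real.exp 2}

theorem isCompact_shell (N : ℕ) : IsCompact (shell N) := by
  refine Metric.isCompact_of_isClosed_isBounded ?_ ?_
  · exact (isClosed_le continuous_const continuous_nsq).inter
      (isClosed_le continuous_nsq continuous_const)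
  · refine (Metric.isBounded_iff_subset_closedBall 0).2 ⟨Real.exp 1, fun z hz => ?_⟩
    rw [mem_closedBall_zero_iff, pi_norm_le_iff_of_nonneg (Real.exp_pos 1).le]
    intro i
    have h1 : ‖z i‖ ^ 2 ≤ Real.exp 2 :=
      (Finset.single_le_sum (f := fun i => ‖z i‖ ^ 2) (fun _ _ => by positivity)
        (Finset.mem_univ i)).trans hz.2
    have h2 : Real.exp 2 = Real.exp 1 ^ 2 := by
      rw [← Real.exp_nat_mul]
      norm_num
    rw [h2] at h1
    exact (sq_le_sq₀ (norm_nonneg _) (Real.exp_pos 1).le).1 h1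

/-- Continuity of parameter integrals over projective space. -/
theorem cont_Iint {N : ℕ} (hN : 0 < N) {V : Set ℂ} (hV : IsOpen V) (F : ℂ → (Fin N → ℂ) → ℝ)
    (hF : ContinuousOn (fun p : ℂ × (Fin N → ℂ) => F p.1 p.2) (V ×ˢ {0}ᶜ)) :
    ContinuousOn (fun t => Iint (F t)) V := by
  have : Nonempty (Fin N) := ⟨⟨0, hN⟩⟩
  have : Nontrivial (Fin N → ℂ) := inferInstance
  have hset : ({z : Fin N → ℂ | 0 ≤ ell z ∧ ell z < 1} : Set (Fin N → ℂ)) =ᵐ[volume]
      ({z : Fin N → ℂ | 0 ≤ ell z ∧ ell z < 1} ∩ {0}ᶜ : Set (Fin N → ℂ)) := by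
    have h0 : (volume : Measure (Fin N → ℂ)) {0} = 0 := measure_singleton 0
    have h1 : ∀ᵐ z : Fin N → ℂ, z ≠ 0 := by
      rw [ae_iff]
      simp
    filter_upwards [h1] with z hz
    apply propext
    constructor
    · exact fun h => ⟨h, hz⟩
    · exact fun h => h.1
  have hsub : {z : Fin N → ℂ | 0 ≤ ell z ∧ ell z < 1} ∩ {0}ᶜ ⊆ shell N := by
    rintro z ⟨⟨h1, h2⟩, hz⟩
    have hp := nsq_pos' hz
    unfold ell at h1 h2
    constructor
    · by_contra hlt
      push Not at hlt
      have := Real.log_neg hp hlt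
      linarith
    · have h3 : Real.log (nsq z) ≤ 2 := by linarith
      calc nsq z = Real.exp (Real.log (nsq z)) := (Real.exp_log hp).symm
        _ ≤ Real.exp 2 := Real.exp_le_exp.2 h3
  have hsh0 : shell N ⊆ ({0}ᶜ : Set (Fin N → ℂ)) := by
    rintro z hz rfl
    have h1 : nsq (0 : Fin N → ℂ) = 0 := by simp [nsq]
    have := hz.1
    rw [h1] at this
    norm_num at this
  have hmeas : MeasurableSet ({z : Fin N → ℂ | 0 ≤ ell z ∧ ell z < 1} ∩ {0}ᶜ) := by
    have he : Measurable (ell : (Fin N → ℂ) → ℝ) := by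
      unfold ell
      exact (Real.measurable_log.comp continuous_nsq.measurable).const_mul _
    exact ((measurableSet_le measurable_const he).inter
      (measurableSet_lt he measurable_const)).inter (measurableSet_singleton 0).compl
  have hfin : volume ({z : Fin N → ℂ | 0 ≤ ell z ∧ ell z < 1} ∩ {0}ᶜ) < ⊤ :=
    (measure_mono hsub).trans_lt (isCompact_shell N).measure_lt_top
  have hI : ∀ t, Iint (F t) =
      ∫ z in {z : Fin N → ℂ | 0 ≤ ell z ∧ ell z < 1} ∩ {0}ᶜ, F t z := by
    intro t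
    unfold Iint
    exact setIntegral_congr_set hset
  intro t0 ht0
  obtain ⟨r, hr, hrV⟩ := Metric.isOpen_iff.1 hV t0 ht0
  have hball : Metric.closedBall t0 (r / 2) ⊆ V :=
    (Metric.closedBall_subset_ball (by linarith)).trans hrV
  have hcomp : IsCompact (Metric.closedBall t0 (r / 2) ×ˢ shell N) :=
    (isCompact_closedBall _ _).prod (isCompact_shell N)
  obtain ⟨C, hC⟩ := hcomp.exists_bound_of_continuousOn
    (hF.mono (Set.prod_mono hball hsh0))
  have hnhds : Metric.ball t0 (r / 2) ∈ nhds t0 := Metric.ball_mem_nhds _ (by linarith)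
  have hcont : ContinuousAt (fun t => ∫ z in {z : Fin N → ℂ | 0 ≤ ell z ∧ ell z < 1} ∩ {0}ᶜ,
      F t z) t0 := by
    refine continuousAt_of_dominated (bound := fun _ => C) ?_ ?_ ?_ ?_
    · filter_upwards [hnhds] with t ht
      refine ContinuousOn.aestronglyMeasurable ?_ hmeas
      have h1 : ContinuousOn (fun z : Fin N → ℂ => (t, z)) ({0}ᶜ) := by fun_prop
      exact (hF.comp h1 fun z hz => ⟨hball (Metric.ball_subset_closedBall ht), hz⟩).mono
        Set.inter_subset_right
    · filter_upwards [hnhds] with t ht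
      refine (ae_restrict_iff' hmeas).2 (Filter.Eventually.of_forall fun z hz => ?_)
      exact hC (t, z) ⟨Metric.ball_subset_closedBall ht, hsub hz⟩
    · exact integrableOn_const hfin.ne
    · refine (ae_restrict_iff' hmeas).2 (Filter.Eventually.of_forall fun z hz => ?_)
      have h1 : ContinuousAt (fun p : ℂ × (Fin N → ℂ) => F p.1 p.2) (t0, z) :=
        hF.continuousAt (prod_mem_nhds (hV.mem_nhds ht0)
          (isOpen_compl_singleton.mem_nhds hz.2))
      exact h1.comp (f := fun t : ℂ => (t, z)) (by fun_prop)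
  have hfun : (fun t => Iint (F t)) =
      fun t => ∫ z in {z : Fin N → ℂ | 0 ≤ ell z ∧ ell z < 1} ∩ {0}ᶜ, F t z := funext hI
  rw [hfun]
  exact hcont.continuousWithinAt

theorem continuous_ct {N : ℕ} : Continuous (fun p : ℂ × (Fin N → ℂ) => ct p.1 p.2) := by
  refine continuous_pi fun a => ?_
  refine Fin.cases ?_ (fun i => ?_) a
  · exact continuous_fst
  · exact (continuous_apply i).comp continuous_snd

theorem continuous_tl {N : ℕ} : Continuous (tl : (Fin (N + 1) → ℂ) → Fin N → ℂ) := by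
  unfold tl
  fun_prop

theorem isOpen_WV {N : ℕ} {V : Set ℂ} (hV : IsOpen V) : IsOpen (WV N V) :=
  (hV.preimage (continuous_apply 0)).inter
    ((isOpen_compl_singleton (x := (0 : Fin N → ℂ))).preimage continuous_tl)

theorem ct_mem {N : ℕ} {V : Set ℂ} {t : ℂ} {x : Fin N → ℂ} (ht : t ∈ V) (hx : x ≠ 0) :
    ct t x ∈ WV N V := ⟨ht, hx⟩

/-- Hessians are continuous. -/
theorem cont_hess (hW6 : T_W6) {ι : Type} [Fintype ι] [DecidableEq ι] {U : Set (ι → ℂ)}
    (hU : IsOpen U) {u : (ι → ℂ) → ℝ} (hu : ContDiffOn ℝ ∞ u U) (a b : ι) :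
    ContinuousOn (fun z => hessR u z a b) U := by
  have h1 : ContDiffOn ℝ ∞ (fun z => (u z : ℂ)) U :=
    Complex.ofRealCLM.contDiff.comp_contDiffOn hu
  exact (hW6 ι a _ U hU (hW6 ι b _ U hU h1).2).1.continuousOn

theorem tc2 (hTA : T_TA) (hW6 : T_W6) : T_TC2 := by
  intro N p q V S v0 v c0 c hV hS hv0 hv
  rcases Nat.eq_zero_or_pos N with rfl | hN
  · have h0 : ∀ t, pair (fun x => v0 (ct t x)) (res S t) (fun j x => v j (ct t x)) = 0 := by
      intro t
      have h1 : ∀ x, Q (res S t) (fun j x => v j (ct t x)) x = 0 := by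
        intro x
        have : IsEmpty ((Fin p ⊕ Fin (q + 1)) ≃ Fin 0) :=
          ⟨fun e => (e (Sum.inr 0)).elim0⟩
        unfold Q mixD
        simp
      unfold pair Iint
      simp [h1]
    simp only [h0]
    exact continuousOn_const
  · refine cont_Iint hN hV (fun t x => v0 (ct t x) *
      Q (res S t) (fun j x => v j (ct t x)) x) ?_
    have hWo : IsOpen (WV N V) := isOpen_WV hV
    have hctc : ContinuousOn (fun p : ℂ × (Fin N → ℂ) => ct p.1 p.2) (V ×ˢ {0}ᶜ) :=
      continuous_ct.continuousOn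
    have hmap : Set.MapsTo (fun p : ℂ × (Fin N → ℂ) => ct p.1 p.2) (V ×ˢ {0}ᶜ) (WV N V) :=
      fun y hy => ct_mem hy.1 hy.2
    refine ContinuousOn.mul (hv0.smooth.continuousOn.comp hctc hmap) ?_
    have hSc : ∀ I J, ContinuousOn (fun y : ℂ × (Fin N → ℂ) => S (ct y.1 y.2) I J)
        (V ×ˢ {0}ᶜ) := fun I J =>
      ((hS.cf.smooth I J).continuousOn).comp hctc hmap
    have hHc : ∀ j a b, ContinuousOn (fun y : ℂ × (Fin N → ℂ) => hessR (v j) (ct y.1 y.2) a b)
        (V ×ˢ {0}ᶜ) := fun j a b =>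
      (cont_hess hW6 hWo (hv j).smooth a b).comp hctc hmap
    have hRc : ∀ a b, ContinuousOn (fun y : ℂ × (Fin N → ℂ) => Rad y.2 a b)
        (V ×ˢ {0}ᶜ) := by
      intro a b
      unfold Rad
      refine ContinuousOn.div ?_ ?_ ?_
      · exact Continuous.continuousOn (by fun_prop)
      · have h1 : Continuous (fun y : ℂ × (Fin N → ℂ) => nsq y.2) :=
          continuous_nsq.comp continuous_snd
        exact Continuous.continuousOn (by fun_prop)
      · intro y hy
        have h1 := (nsq_pos' hy.2).ne'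
        exact mul_ne_zero (by norm_num) (pow_ne_zero 2 (by exact_mod_cast h1))
    have hmain : ContinuousOn (fun y : ℂ × (Fin N → ℂ) =>
        (mixD (fun I J => S (ct y.1 y.2) (fun l => (I l).succ) (fun l => (J l).succ))
          (Fin.snoc (α := fun _ => Matrix (Fin N) (Fin N) ℂ)
            (fun j => (hessR (v j) (ct y.1 y.2)).submatrix Fin.succ Fin.succ) (Rad y.2))).re)
        (V ×ˢ {0}ᶜ) := by
      refine Complex.continuous_re.comp_continuousOn ?_
      unfold mixD
      refine continuousOn_finsetSum _ fun e _ => continuousOn_finsetSum _ fun e' _ => ?_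
      refine ContinuousOn.mul (continuousOn_const.mul (hSc _ _)) ?_
      refine continuousOn_finsetProd _ fun j _ => ?_
      refine Fin.lastCases ?_ (fun i => ?_) j
      · simp only [Fin.snoc_last]
        exact hRc _ _
      · simp only [Fin.snoc_castSucc, Matrix.submatrix_apply]
        exact hHc _ _ _
    refine hmain.congr fun y hy => ?_
    unfold Q
    have h1 : ∀ j, hessR (fun x => v j (ct y.1 x)) y.2 =
        (hessR (v j) (ct y.1 y.2)).submatrix Fin.succ Fin.succ := fun j =>
      ((hTA N p V y.1 hV hy.1).2 (c j) (v j) (hv j)).2 y.2 hy.2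
    have h2 : (fun j => hessR (fun x => v j (ct y.1 x)) y.2) =
        fun j => (hessR (v j) (ct y.1 y.2)).submatrix Fin.succ Fin.succ := funext h1
    show (mixD (res S y.1 y.2) (Fin.snoc (α := fun _ => Matrix (Fin N) (Fin N) ℂ)
      (fun j => hessR (fun x => v j (ct y.1 x)) y.2) (Rad y.2))).re = _
    rw [h2]
    rfl

end

end Pool.Agent.H47.EQ
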