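import Pool.Agent.H92.EQ.TT

/-!
Board MP_75a732_an, row TE.
-/

namespace Pool.Agent.H47.EQ

open scoped BigOperators ComplexConjugate ContDiff ComplexOrder
open MeasureTheory Pool.Agent.H92.EQ

noncomputable section

/-- The derivative of a polynomial along a line. -/
theorem hasDerivAt_eval_line {κ : Type} [Fintype κ] [DecidableEq κ] (P : MvPolynomial κ ℂ)
    (z v : κ → ℂ) :
    HasDerivAt (fun l : ℂ => MvPolynomial.eval (z + l • v) P)
      (∑ a, MvPolynomial.eval z (MvPolynomial.pderiv a P) * v a) 0 := by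
  induction P using MvPolynomial.induction_on with
  | C c => simpa using hasDerivAt_const (0 : ℂ) c
  | add P Q hP hQ =>
    have h := hP.add hQ
    simp only [map_add, add_mul, Finset.sum_add_distrib]
    exact h
  | mul_X P i hP =>
    have h1 : HasDerivAt (fun l : ℂ => z i + l * v i) (v i) 0 := by
      simpa using ((hasDerivAt_id (0 : ℂ)).mul_const (v i)).const_add (z i)
    have h := hP.mul h1
    have e1 : (fun l : ℂ => MvPolynomial.eval (z + l • v) (P * MvPolynomial.X i)) =
        (fun l : ℂ => MvPolynomial.eval (z + l • v) P) * (fun l : ℂ => z i + l * v i) := by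
      funext l
      simp
    rw [e1]
    refine h.congr_deriv ?_
    simp only [zero_smul, add_zero, zero_mul]
    have e2 : ∀ a, MvPolynomial.eval z (MvPolynomial.pderiv a (P * MvPolynomial.X i)) * v a =
        MvPolynomial.eval z (MvPolynomial.pderiv a P) * v a * z i +
          MvPolynomial.eval z P * (if a = i then v i else 0) := by
      intro a
      rw [Derivation.leibniz, MvPolynomial.pderiv_X]
      by_cases hai : a = i
      · subst hai
        simp [smul_eq_mul]
        ring
      · simp [hai, smul_eq_mul, Ne.symm hai]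
        ring
    rw [Finset.sum_congr rfl fun a _ => e2 a, Finset.sum_add_distrib, ← Finset.sum_mul,
      ← Finset.mul_sum]
    simp

theorem te (hTB : T_TB) (hTC : T_TC) (hW4 : T_W4) (hW9 : T_W9) (hA8 : T_A8) : T_TE := by
  intro N p q D V G S hN hV hD hG hG0 hS z hz
  obtain ⟨hF, hL, -⟩ := hTB N p D V G S hV hD hG hG0 hS
  have hC := (hTC N p 1 V (pull G S) (fun _ => fun z => (1 / (D : ℝ)) * ell (ev G z))
    (fun _ => 1) hV hF (fun _ => hL)).1 z hz 0
  have hD0 : (D : ℂ) ≠ 0 := by exact_mod_cast Nat.one_le_iff_ne_zero.mp hD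
  have hw : ev G z ≠ 0 := hG0 z hz
  -- the Euler identity
  have hct : ∀ l : ℂ, ct (z 0) ((1 + l) • tl z) = z + l • ct 0 (tl z) := by
    intro l
    funext a
    refine Fin.cases ?_ (fun i => ?_) a
    · simp [ct]
    · simp [ct, tl]
      ring
  have hE : ∀ i, ∑ a, jac G z i a * ct 0 (tl z) a = (D : ℂ) * ev G z i := by
    intro i
    have h1 := hasDerivAt_eval_line (G i) z (ct 0 (tl z))
    have h2 : HasDerivAt (fun l : ℂ => (1 + l) ^ D * ev G z i) ((D : ℂ) * ev G z i) 0 := by
      have h3 : HasDerivAt (fun l : ℂ => (1 + l) ^ D) ((D : ℂ)) 0 := by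
        have h4 := ((hasDerivAt_id (0 : ℂ)).const_add (1 : ℂ)).pow D
        refine h4.congr_deriv ?_
        simp
      exact h3.mul_const _
    have e : (fun l : ℂ => MvPolynomial.eval (z + l • ct 0 (tl z)) (G i)) =
        fun l : ℂ => (1 + l) ^ D * ev G z i := by
      funext l
      have h5 := congrFun (hG (1 + l) z) i
      rw [hct l] at h5
      simpa [ev] using h5
    rw [e] at h1
    exact h1.unique h2
  -- a kernel vector
  obtain ⟨v, hv0, hv⟩ : ∃ v : Fin (N + 1) → ℂ, v ≠ 0 ∧ ∀ i, ∑ a, jac G z i a * v a = 0 := by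
    have h1 : Module.finrank ℂ (Fin N → ℂ) < Module.finrank ℂ (Fin (N + 1) → ℂ) := by
      simp
    have h2 := LinearMap.ker_ne_bot_of_finrank_lt (f := Matrix.mulVecLin (jac G z)) h1
    obtain ⟨v, hv, hv0⟩ := (Submodule.ne_bot_iff _).1 h2
    refine ⟨v, hv0, fun i => ?_⟩
    have h3 := congrFun (LinearMap.mem_ker.1 hv) i
    simpa [Matrix.mulVecLin_apply, Matrix.mulVec, dotProduct] using h3
  have hind : LinearIndependent ℂ ![v, ct 0 (tl z)] := by
    rw [LinearIndependent.pair_iff]
    intro s t hst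
    have h1 : ∀ a, s * v a + t * ct 0 (tl z) a = 0 := fun a => by
      simpa using congrFun hst a
    have ht : t = 0 := by
      by_contra ht
      refine hw (funext fun i => ?_)
      have h2 : ∑ a, jac G z i a * (s * v a + t * ct 0 (tl z) a) = 0 :=
        Finset.sum_eq_zero fun a _ => by rw [h1 a, mul_zero]
      have h3 : ∑ a, jac G z i a * (s * v a + t * ct 0 (tl z) a) =
          s * (∑ a, jac G z i a * v a) + t * ∑ a, jac G z i a * ct 0 (tl z) a := by
        rw [Finset.mul_sum, Finset.mul_sum, ← Finset.sum_add_distrib]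
        exact Finset.sum_congr rfl fun a _ => by ring
      rw [h3, hv i, hE i, mul_zero, zero_add] at h2
      have h4 := (mul_eq_zero.1 h2).resolve_left ht
      exact (mul_eq_zero.1 h4).resolve_left hD0
    subst ht
    refine ⟨?_, rfl⟩
    by_contra hs
    refine hv0 (funext fun a => ?_)
    have h2 := h1 a
    rw [zero_mul, add_zero] at h2
    exact (mul_eq_zero.1 h2).resolve_left hs
  -- the form is killed
  have hkv : KilL v (pull G S z) := by
    intro I J j
    have e1 : ∀ (I' : Fin p → Fin N) (a : Fin (N + 1)),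
        ∏ l, jac G z (I' l) (Function.update I j a l) =
          jac G z (I' j) a * ∏ l ∈ Finset.univ.erase j, jac G z (I' l) (I l) := by
      intro I' a
      rw [← Finset.mul_prod_erase Finset.univ _ (Finset.mem_univ j), Function.update_self]
      exact congrArg (fun t => jac G z (I' j) a * t) (Finset.prod_congr rfl fun l hl => by
        rw [Function.update_of_ne (Finset.ne_of_mem_erase hl)])
    have e2 : ∀ a, v a * pull G S z (Function.update I j a) J =
        ∑ I' : Fin p → Fin N, ∑ J' : Fin p → Fin N, (jac G z (I' j) a * v a) *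
          (S (ev G z) I' J' * (∏ l ∈ Finset.univ.erase j, jac G z (I' l) (I l)) *
            ∏ l, conj (jac G z (J' l) (J l))) := by
      intro a
      simp only [pull, Finset.mul_sum]
      refine Finset.sum_congr rfl fun I' _ => Finset.sum_congr rfl fun J' _ => ?_
      rw [e1 I' a]
      ring
    rw [Finset.sum_congr rfl fun a _ => e2 a, Finset.sum_comm]
    refine Finset.sum_eq_zero fun I' _ => ?_
    rw [Finset.sum_comm]
    refine Finset.sum_eq_zero fun J' _ => ?_
    rw [← Finset.sum_mul, hv (I' j), zero_mul]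
  have hkx : KilL (ct 0 (tl z)) (pull G S z) := hF.kilL z hz
  -- the Hessian is killed
  have hf : ContDiffAt ℝ 2 (fun w : Fin N → ℂ => (((1 / (D : ℝ)) * ell w : ℝ) : ℂ)) (ev G z) := by
    have h1 : ContDiffAt ℝ ∞ (ell : (Fin N → ℂ) → ℝ) (ev G z) :=
      (hW9 (Fin N)).1.contDiffAt (isOpen_compl_singleton.mem_nhds hw)
    have h2 : ContDiffAt ℝ 2 (ell : (Fin N → ℂ) → ℝ) (ev G z) := h1.of_le ENat.LEInfty.out
    exact Complex.ofRealCLM.contDiff.contDiffAt.comp _ (contDiffAt_const.mul h2)
  have hMv : MKilL v (hessR (fun z => (1 / (D : ℝ)) * ell (ev G z)) z) := by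
    intro b
    have h1 := hW4 (Fin N) (Fin (N + 1)) G
      (fun w : Fin N → ℂ => (((1 / (D : ℝ)) * ell w : ℝ) : ℂ)) z hf
    have e2 : ∀ a, v a * hessR (fun z => (1 / (D : ℝ)) * ell (ev G z)) z a b =
        ∑ i, ∑ j, (jac G z i a * v a) * (conj (jac G z j b) *
          hess (fun w : Fin N → ℂ => (((1 / (D : ℝ)) * ell w : ℝ) : ℂ)) (ev G z) i j) := by
      intro a
      have h2 : hessR (fun z => (1 / (D : ℝ)) * ell (ev G z)) z a b =
          hess (fun w => (fun w : Fin N → ℂ => (((1 / (D : ℝ)) * ell w : ℝ) : ℂ)) (ev G w)) z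
            a b := rfl
      rw [h2, h1 a b, Finset.mul_sum]
      refine Finset.sum_congr rfl fun i _ => ?_
      rw [Finset.mul_sum]
      refine Finset.sum_congr rfl fun j _ => ?_
      ring
    rw [Finset.sum_congr rfl fun a _ => e2 a, Finset.sum_comm]
    refine Finset.sum_eq_zero fun i _ => ?_
    rw [Finset.sum_comm]
    refine Finset.sum_eq_zero fun j _ => ?_
    rw [← Finset.sum_mul, hv i, zero_mul]
  have h := hA8 (Fin (N + 1)) p (q + 1 + 1) (pull G S z)
    (Fin.snoc (α := fun _ => Matrix (Fin (N + 1)) (Fin (N + 1)) ℂ)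
      (fun _ : Fin (q + 1) => hessR (fun z => (1 / (D : ℝ)) * ell (ev G z)) z) (RadT z))
    (Fin.last (q + 1)) v (ct 0 (tl z)) hind hkv hkx (fun j hj => by
      obtain ⟨i, rfl⟩ := Fin.exists_castSucc_eq.2 hj
      rw [Fin.snoc_castSucc]
      exact ⟨hMv, hC.2.2.1⟩)
  unfold QT
  rw [h]
  rfl

end

end Pool.Agent.H47.EQ
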